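import Pool.Agent.Helper57.KE.St2

/-!
# Project KF, module POC: the critical inequality

With `w = 1/x` all terms of order at most two in `(w, δ)` cancel; the terms of order three have
coefficients at least `200`.
-/

set_option autoImplicit false

namespace Pool.Agent.Helper31.KE

open Pool.Agent.Helper57.KE Pool.Agent.Helper57.KR Pool.Agent.Helper65.RG

/-- the main lower bound, polynomial form -/
private theorem core3 {s p α β γ w δ K : ℝ} (hs0 : 0 < s) (hp0 : 0 < p)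
    (hp1 : p < 1) (rel : 2 * p * s = (1 - p) * (1 - s)) (hα : 0 ≤ α) (hβ : 0 ≤ β) (hγ : 0 ≤ γ)
    (c1 : 200 ≤ (1 - p) * α - p ^ 2) (c2 : 200 ≤ 2 * s * α - p * β)
    (c3 : 200 ≤ 2 * s * β - (1 + p) * γ + (1 + p) * s) (c4 : 200 ≤ 2 * s * γ - s ^ 2)
    (hK : K = 1 + α + β + γ) (hw : 0 < w) (hδ : 0 < δ) (hwK : K ^ 2 * (200 * w) ≤ 1)
    (hδK : K ^ 2 * (200 * δ) ≤ 1) (R : ℝ) (hR : R ≤ 2 * (w + δ)) (hR0 : 0 ≤ R) :
    0 ≤ s ^ 2 * δ ^ 2 + (1 + δ) * ((p * w - s * δ + α * w ^ 2 + β * δ * w + γ * δ ^ 2) -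
        (p * (w - w ^ 2 + w ^ 3) - s * δ + α * (w ^ 2 - 2 * w ^ 3 + 3 * w ^ 4) +
          β * δ * (w - w ^ 2 + w ^ 3) + γ * δ ^ 2)) -
      (1 + δ) * (p * w - s * δ + α * w ^ 2 + β * δ * w + γ * δ ^ 2) ^ 2 -
      (1 - p) * w * δ - (1 - p) * w * ((1 + δ) *
        (p * (w - w ^ 2 + w ^ 3) - s * δ + α * (w ^ 2 - 2 * w ^ 3 + 3 * w ^ 4) +
          β * δ * (w - w ^ 2 + w ^ 3) + γ * δ ^ 2)) - 4 * R ^ 3 := by
  obtain ⟨h, hh⟩ : ∃ h : ℝ, h = w + δ := ⟨_, rfl⟩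
  obtain ⟨e, he⟩ : ∃ e : ℝ, e = α * w ^ 2 + β * δ * w + γ * δ ^ 2 := ⟨_, rfl⟩
  obtain ⟨T, hT⟩ : ∃ T : ℝ, T = w ^ 3 + w ^ 2 * δ + w * δ ^ 2 + δ ^ 3 := ⟨_, rfl⟩
  have hK1 : 1 ≤ K := by linarith
  have hK2 : K ≤ K ^ 2 := le_self_pow₀ hK1 two_ne_zero
  have hK21 : 1 ≤ K ^ 2 := hK1.trans hK2
  have hαK : α ≤ K ^ 2 := by linarith
  have hβK : β ≤ K ^ 2 := by linarith
  have hγK : γ ≤ K ^ 2 := by linarith
  have hwh : w ≤ h := by linarith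
  have hδh : δ ≤ h := by linarith
  have hh0 : 0 < h := by linarith
  have hhK : K ^ 2 * (100 * h) ≤ 1 := by
    rw [hh]
    linarith
  have hh1 : h ≤ 1 / 100 := by
    have := mul_le_mul_of_nonneg_right hK21 (by positivity : 0 ≤ 100 * h)
    linarith
  have hw1 : w ≤ 1 := by linarith
  have hδ1 : δ ≤ 1 := by linarith
  have he0 : 0 ≤ e := by rw [he]; positivity
  have heK : e ≤ K * h ^ 2 := by
    have g1 : α * w ^ 2 ≤ α * h ^ 2 := by gcongr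
    have g2 : β * (δ * w) ≤ β * (h * h) := by gcongr
    have g3 : γ * δ ^ 2 ≤ γ * h ^ 2 := by gcongr
    have g4 : 0 ≤ h ^ 2 := by positivity
    have g5 : K * h ^ 2 = h ^ 2 + α * h ^ 2 + β * (h * h) + γ * h ^ 2 := by
      rw [hK]
      ring
    have g6 : e = α * w ^ 2 + β * (δ * w) + γ * δ ^ 2 := by
      rw [he]
      ring
    linarith
  have heK2 : e ≤ K ^ 2 * h ^ 2 := heK.trans (by gcongr)
  have hT0 : 0 < T := by rw [hT]; positivity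
  have hhT : h ^ 3 ≤ 3 * T := by
    have : 3 * T - h ^ 3 = 2 * w ^ 3 + 2 * δ ^ 3 := by rw [hT, hh]; ring
    have : 0 < 2 * w ^ 3 + 2 * δ ^ 3 := by positivity
    linarith
  have hp1' : 0 ≤ 1 - p := by linarith
  have hp1'' : 1 - p ≤ 1 := by linarith
  have key : s ^ 2 * δ ^ 2 + (1 + δ) * ((p * w - s * δ + α * w ^ 2 + β * δ * w + γ * δ ^ 2) -
        (p * (w - w ^ 2 + w ^ 3) - s * δ + α * (w ^ 2 - 2 * w ^ 3 + 3 * w ^ 4) +
          β * δ * (w - w ^ 2 + w ^ 3) + γ * δ ^ 2)) -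
      (1 + δ) * (p * w - s * δ + α * w ^ 2 + β * δ * w + γ * δ ^ 2) ^ 2 -
      (1 - p) * w * δ - (1 - p) * w * ((1 + δ) *
        (p * (w - w ^ 2 + w ^ 3) - s * δ + α * (w ^ 2 - 2 * w ^ 3 + 3 * w ^ 4) +
          β * δ * (w - w ^ 2 + w ^ 3) + γ * δ ^ 2)) =
      ((1 - p) * α - p ^ 2) * w ^ 3 + (2 * s * α - p * β) * (w ^ 2 * δ) +
      (2 * s * β - (1 + p) * γ + (1 + p) * s) * (w * δ ^ 2) + (2 * s * γ - s ^ 2) * δ ^ 3 +
      (2 * p * s - (1 - p) * (1 - s)) * (w * δ) +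
      (2 * α * (δ * w ^ 3) + β * (δ ^ 2 * w ^ 2) + 2 * s * (δ ^ 2 * e) +
        (1 - p) * (w * (2 * α * w ^ 3 + β * (δ * w ^ 2))) +
        (1 - p) * (w * (δ * (p * w ^ 2 + 2 * α * w ^ 3 + β * (δ * w ^ 2))))) -
      (2 * (δ * p * w * e) + (1 + δ) * e ^ 2 + 3 * (α * w ^ 4) + β * (δ * w ^ 3) +
        1 * (δ * (p * w ^ 3)) + 3 * (α * (δ * w ^ 4)) + β * (δ * (δ * w ^ 3)) +
        (1 - p) * (w * (p * w ^ 3)) + 3 * ((1 - p) * (α * (w * w ^ 4))) +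
        (1 - p) * (β * (w * (δ * w ^ 3))) + (1 - p) * (w * (δ * e)) +
        (1 - p) * (w * (δ * (p * w ^ 3))) + 3 * ((1 - p) * (w * (δ * (α * w ^ 4)))) +
        (1 - p) * (w * (δ * (β * (δ * w ^ 3))))) := by
    rw [he]
    ring
  rw [key]
  have pos : 0 ≤ 2 * α * (δ * w ^ 3) + β * (δ ^ 2 * w ^ 2) + 2 * s * (δ ^ 2 * e) +
        (1 - p) * (w * (2 * α * w ^ 3 + β * (δ * w ^ 2))) +
        (1 - p) * (w * (δ * (p * w ^ 2 + 2 * α * w ^ 3 + β * (δ * w ^ 2)))) := by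
    positivity
  have n1 : 2 * (δ * p * w * e) ≤ 2 * (h * 1 * h * (K ^ 2 * h ^ 2)) := by gcongr
  have n2 : (1 + δ) * e ^ 2 ≤ (1 + 1) * (K * h ^ 2) ^ 2 := by gcongr
  have n3 : 3 * (α * w ^ 4) ≤ 3 * (K ^ 2 * h ^ 4) := by gcongr
  have n4 : β * (δ * w ^ 3) ≤ K ^ 2 * (h * h ^ 3) := by gcongr
  have n5 : 1 * (δ * (p * w ^ 3)) ≤ K ^ 2 * (h * (1 * h ^ 3)) := by gcongr
  have n6 : 3 * (α * (δ * w ^ 4)) ≤ 3 * (K ^ 2 * (1 * h ^ 4)) := by gcongr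
  have n7 : β * (δ * (δ * w ^ 3)) ≤ K ^ 2 * (1 * (h * h ^ 3)) := by gcongr
  have hpK : 1 - p ≤ K ^ 2 := by linarith
  have n8 : (1 - p) * (w * (p * w ^ 3)) ≤ K ^ 2 * (h * (1 * h ^ 3)) := by gcongr
  have n9 : 3 * ((1 - p) * (α * (w * w ^ 4))) ≤ 3 * (1 * (K ^ 2 * (1 * h ^ 4))) := by gcongr
  have n10 : (1 - p) * (β * (w * (δ * w ^ 3))) ≤ 1 * (K ^ 2 * (1 * (h * h ^ 3))) := by gcongr
  have n11 : (1 - p) * (w * (δ * e)) ≤ 1 * (h * (h * (K ^ 2 * h ^ 2))) := by gcongr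
  have n12 : (1 - p) * (w * (δ * (p * w ^ 3))) ≤ K ^ 2 * (1 * (h * (1 * h ^ 3))) := by gcongr
  have n13 : 3 * ((1 - p) * (w * (δ * (α * w ^ 4)))) ≤ 3 * (1 * (1 * (1 * (K ^ 2 * h ^ 4)))) := by
    gcongr
  have n14 : (1 - p) * (w * (δ * (β * (δ * w ^ 3)))) ≤ 1 * (1 * (1 * (K ^ 2 * (h * h ^ 3)))) := by
    gcongr
  have m1 : 200 * w ^ 3 ≤ ((1 - p) * α - p ^ 2) * w ^ 3 := by gcongr
  have m2 : 200 * (w ^ 2 * δ) ≤ (2 * s * α - p * β) * (w ^ 2 * δ) := by gcongr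
  have m3 : 200 * (w * δ ^ 2) ≤ (2 * s * β - (1 + p) * γ + (1 + p) * s) * (w * δ ^ 2) := by gcongr
  have m4 : 200 * δ ^ 3 ≤ (2 * s * γ - s ^ 2) * δ ^ 3 := by gcongr
  have hR3 : R ^ 3 ≤ 8 * h ^ 3 := by
    have : R ^ 3 ≤ (2 * h) ^ 3 := by
      rw [hh]
      gcongr
    calc R ^ 3 ≤ (2 * h) ^ 3 := this
      _ = 8 * h ^ 3 := by ring
  have hK4 : K ^ 2 * h ^ 4 ≤ 3 / 100 * T := by
    calc K ^ 2 * h ^ 4 = (K ^ 2 * (100 * h)) * (h ^ 3 / 100) := by ring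
      _ ≤ 1 * (h ^ 3 / 100) := by
          refine mul_le_mul_of_nonneg_right hhK (by positivity)
      _ ≤ 3 / 100 * T := by linarith
  have hrel : (2 * p * s - (1 - p) * (1 - s)) * (w * δ) = 0 := by
    rw [rel]
    ring
  rw [hrel]
  have hsum : 2 * (h * 1 * h * (K ^ 2 * h ^ 2)) + (1 + 1) * (K * h ^ 2) ^ 2 +
      3 * (K ^ 2 * h ^ 4) + K ^ 2 * (h * h ^ 3) + K ^ 2 * (h * (1 * h ^ 3)) +
      3 * (K ^ 2 * (1 * h ^ 4)) + K ^ 2 * (1 * (h * h ^ 3)) + K ^ 2 * (h * (1 * h ^ 3)) +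
      3 * (1 * (K ^ 2 * (1 * h ^ 4))) + 1 * (K ^ 2 * (1 * (h * h ^ 3))) +
      1 * (h * (h * (K ^ 2 * h ^ 2))) + K ^ 2 * (1 * (h * (1 * h ^ 3))) +
      3 * (1 * (1 * (1 * (K ^ 2 * h ^ 4)))) + 1 * (1 * (1 * (K ^ 2 * (h * h ^ 3)))) =
      24 * (K ^ 2 * h ^ 4) := by ring
  have hT' : 200 * w ^ 3 + 200 * (w ^ 2 * δ) + 200 * (w * δ ^ 2) + 200 * δ ^ 3 = 200 * T := by
    rw [hT]
    ring
  linarith

/-- the inverse -/
private theorem inv_bd {ρ R : ℝ} (h1 : |ρ| ≤ 1 / 2) (hR : R = |ρ|) :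
    1 / (1 + ρ) ≤ 1 - ρ + ρ ^ 2 + 2 * R ^ 3 := by
  have h2 := abs_le.1 h1
  have hd : 0 < 1 + ρ := by linarith
  rw [div_le_iff₀ hd]
  have h3 : |ρ ^ 3| = R ^ 3 := by rw [abs_pow, hR]
  have h4 := abs_le.1 (le_of_eq h3)
  have h5 : 0 ≤ R ^ 3 := by rw [← h3]; exact abs_nonneg _
  have h6 : (1 - ρ + ρ ^ 2 + 2 * R ^ 3) * (1 + ρ) =
      1 + ρ ^ 3 + R ^ 3 + 2 * (R ^ 3 * (1 / 2 + ρ)) := by ring
  have h7 := mul_nonneg h5 (by linarith : (0 : ℝ) ≤ 1 / 2 + ρ)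
  linarith

/-- the last claim -/
private theorem core4 {s p α β γ w δ K : ℝ} (hs0 : 0 < s) (hs1 : s < 1) (hp0 : 0 < p)
    (hp1 : p < 1) (hα : 0 ≤ α) (hβ : 0 ≤ β) (hγ : 8 ≤ γ)
    (hK : K = 1 + α + β + γ) (hw : 0 < w) (hδ : 0 < δ) (hδ2 : δ ≤ 1 / 2)
    (hδK : 2 * (K * δ) ≤ s) (hws : 2 * w ≤ s * δ) :
    δ ^ 2 * (1 - s ^ 2) + s * p * δ * w ≤
      (1 + δ) ^ 2 - (1 + δ) / (1 + (p * w - s * δ + α * w ^ 2 + β * δ * w + γ * δ ^ 2)) -
        ((1 + δ) * (1 + (p * w - s * δ + α * w ^ 2 + β * δ * w + γ * δ ^ 2)) - 1) := by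
  obtain ⟨e, he⟩ : ∃ e : ℝ, e = α * w ^ 2 + β * δ * w + γ * δ ^ 2 := ⟨_, rfl⟩
  obtain ⟨A, hA⟩ : ∃ A : ℝ, A = s * δ - p * w := ⟨_, rfl⟩
  have e1 : p * w - s * δ + α * w ^ 2 + β * δ * w + γ * δ ^ 2 = -(A - e) := by
    rw [hA, he]
    ring
  rw [e1]
  have hsδ : s * δ ≤ δ := mul_le_of_le_one_left hδ.le hs1.le
  have hpw : p * w ≤ w := mul_le_of_le_one_left hw.le hp1.le
  have hpw0 : 0 < p * w := mul_pos hp0 hw
  have hA1 : s * δ / 2 ≤ A := by linarith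
  have hsδ0 : 0 < s * δ := mul_pos hs0 hδ
  have hA0 : 0 < A := by linarith
  have hAs : A ≤ s * δ := by linarith
  have hwδ : w ≤ δ := by linarith
  have he0 : γ * δ ^ 2 ≤ e := by
    have : 0 ≤ α * w ^ 2 + β * δ * w := by positivity
    linarith
  have he00 : 0 ≤ e := le_trans (by positivity) he0
  have heA : e ≤ A := by
    have g1 : α * w ^ 2 ≤ α * δ ^ 2 := by gcongr
    have g2 : β * δ * w ≤ β * δ * δ := by gcongr
    have g3 : e ≤ K * δ * δ := by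
      have g5 : K * δ * δ = δ ^ 2 + α * δ ^ 2 + β * δ * δ + γ * δ ^ 2 := by
        rw [hK]
        ring
      have g6 : 0 ≤ δ ^ 2 := sq_nonneg δ
      linarith
    have g4 : K * δ * δ ≤ s / 2 * δ := by
      refine mul_le_mul_of_nonneg_right ?_ hδ.le
      linarith
    linarith
  have hden : 0 < 1 + -(A - e) := by linarith
  have hq : (1 + δ) ^ 2 - (1 + δ) / (1 + -(A - e)) - ((1 + δ) * (1 + -(A - e)) - 1) =
      δ ^ 2 - (1 + δ) * ((A - e) ^ 2 / (1 + -(A - e))) := by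
    field_simp
    ring
  rw [hq]
  have hr2 : (A - e) ^ 2 ≤ A ^ 2 - s * γ * δ ^ 3 / 2 := by
    have g1 : s * δ / 2 * (γ * δ ^ 2) ≤ A * e := mul_le_mul hA1 he0 (by positivity) hA0.le
    have g2 := mul_nonneg he00 (by linarith : (0 : ℝ) ≤ A - e)
    have g3 : (A - e) ^ 2 = A ^ 2 - A * e - e * (A - e) := by ring
    have g4 : s * δ / 2 * (γ * δ ^ 2) = s * γ * δ ^ 3 / 2 := by ring
    linarith
  have hA2 : A ^ 2 ≤ s ^ 2 * δ ^ 2 - s * p * δ * w := by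
    have g1 : (p * w) * (p * w) ≤ (p * w) * (s * δ) :=
      mul_le_mul_of_nonneg_left (by linarith) hpw0.le
    have g2 : A ^ 2 = s ^ 2 * δ ^ 2 - 2 * (s * p * δ * w) + p * w * (p * w) := by
      rw [hA]
      ring
    have g3 : p * w * (s * δ) = s * p * δ * w := by ring
    linarith
  have hAA : A ^ 2 ≤ s ^ 2 * δ ^ 2 := by
    have : 0 ≤ s * p * δ * w := by positivity
    linarith
  have hr0 : 0 ≤ (A - e) ^ 2 := sq_nonneg _
  have hfrac : (1 + δ) * ((A - e) ^ 2 / (1 + -(A - e))) ≤ (1 + 4 * δ) * (A - e) ^ 2 := by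
    rw [mul_div_assoc', div_le_iff₀ hden]
    have g1 : 1 + δ ≤ (1 + 4 * δ) * (1 + -(A - e)) := by
      have g2 : 1 - δ ≤ 1 + -(A - e) := by linarith
      have g3 : (1 + 4 * δ) * (1 - δ) ≤ (1 + 4 * δ) * (1 + -(A - e)) :=
        mul_le_mul_of_nonneg_left g2 (by linarith)
      have g4 : (1 + 4 * δ) * (1 - δ) = 1 + δ + 4 * (δ * (1 / 2 - δ)) := by ring
      have g5 : 0 ≤ δ * (1 / 2 - δ) := mul_nonneg hδ.le (by linarith)
      linarith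
    calc (1 + δ) * (A - e) ^ 2 ≤ ((1 + 4 * δ) * (1 + -(A - e))) * (A - e) ^ 2 :=
          mul_le_mul_of_nonneg_right g1 hr0
      _ = _ := by ring
  have hlast : 4 * δ * (A - e) ^ 2 ≤ s * γ * δ ^ 3 / 2 := by
    have g1 : (A - e) ^ 2 ≤ s ^ 2 * δ ^ 2 := by
      have : 0 ≤ s * γ * δ ^ 3 / 2 := by positivity
      linarith
    calc 4 * δ * (A - e) ^ 2 ≤ 4 * δ * (s ^ 2 * δ ^ 2) := by gcongr
      _ = (4 * s) * (s * δ ^ 3) := by ring
      _ ≤ (γ / 2) * (s * δ ^ 3) := by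
          refine mul_le_mul_of_nonneg_right ?_ (by positivity)
          linarith
      _ = s * γ * δ ^ 3 / 2 := by ring
  have hexp : (1 + 4 * δ) * (A - e) ^ 2 = (A - e) ^ 2 + 4 * δ * (A - e) ^ 2 := by ring
  have hexp2 : δ ^ 2 * (1 - s ^ 2) = δ ^ 2 - s ^ 2 * δ ^ 2 := by ring
  linarith

theorem hPOC : StPOC := by
  intro c hc
  have hc0 : 0 < c := by linarith
  have hc2 : 1 < c ^ 2 := one_lt_pow₀ hc two_ne_zero
  have h1c : 1 / c ^ 2 < 1 := by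
    rw [div_lt_one (by positivity)]
    exact hc2
  have h0c : 0 < 1 / c ^ 2 := by positivity
  obtain ⟨s, hs⟩ : ∃ s : ℝ, s = ss c := ⟨_, rfl⟩
  have hs2 : s ^ 2 = 1 - 1 / c ^ 2 := by
    rw [hs, ss, Real.sq_sqrt (by linarith)]
  have hs0 : 0 < s := by
    rw [hs, ss]
    exact Real.sqrt_pos.2 (by linarith)
  have hs1 : s < 1 := by
    by_contra hcon
    have h1 : 1 ≤ s ^ 2 := one_le_pow₀ (not_lt.1 hcon)
    linarith
  obtain ⟨p, hp⟩ : ∃ p : ℝ, p = pp c := ⟨_, rfl⟩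
  have hps : p = (1 - s) / (1 + s) := by rw [hp, hs, pp]
  have h1s : 0 < 1 + s := by linarith
  have hp0 : 0 < p := by
    rw [hps]
    exact div_pos (by linarith) h1s
  have hp1 : p < 1 := by
    rw [hps, div_lt_one h1s]
    linarith
  have rel : 2 * p * s = (1 - p) * (1 - s) := by
    rw [hps]
    field_simp
    ring
  rw [← hs, ← hp]
  obtain ⟨γ, hγ⟩ : ∃ γ : ℝ, γ = (200 + s ^ 2) / (2 * s) + 8 := ⟨_, rfl⟩
  obtain ⟨β, hβ⟩ : ∃ β : ℝ, β = (200 + (1 + p) * γ) / (2 * s) := ⟨_, rfl⟩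
  obtain ⟨α, hα⟩ : ∃ α : ℝ, α = (200 + p * β) / (2 * s) + (200 + p ^ 2) / (1 - p) := ⟨_, rfl⟩
  have h1p : 0 < 1 - p := by linarith
  have hγ8 : 8 ≤ γ := by
    have : 0 < (200 + s ^ 2) / (2 * s) := by positivity
    linarith
  have hγ0 : 0 < γ := by linarith
  have hβ0 : 0 < β := by rw [hβ]; positivity
  have hα0 : 0 < α := by rw [hα]; positivity
  have c4 : 200 ≤ 2 * s * γ - s ^ 2 := by
    have g1 : 2 * s * ((200 + s ^ 2) / (2 * s)) = 200 + s ^ 2 := by field_simp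
    have g2 : 2 * s * γ = 2 * s * ((200 + s ^ 2) / (2 * s)) + 16 * s := by
      rw [hγ]
      ring
    linarith
  have c3 : 200 ≤ 2 * s * β - (1 + p) * γ + (1 + p) * s := by
    have : 2 * s * β = 200 + (1 + p) * γ := by
      rw [hβ]
      field_simp
    have : 0 < (1 + p) * s := by positivity
    linarith
  have c2 : 200 ≤ 2 * s * α - p * β := by
    have g1 : 2 * s * ((200 + p * β) / (2 * s)) = 200 + p * β := by field_simp
    have g2 : 0 < 2 * s * ((200 + p ^ 2) / (1 - p)) := by positivity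
    rw [hα]
    linarith
  have c1 : 200 ≤ (1 - p) * α - p ^ 2 := by
    have g1 : (1 - p) * ((200 + p ^ 2) / (1 - p)) = 200 + p ^ 2 := by field_simp
    have g2 : 0 < (1 - p) * ((200 + p * β) / (2 * s)) := by positivity
    rw [hα]
    linarith
  obtain ⟨K, hK⟩ : ∃ K : ℝ, K = 1 + α + β + γ := ⟨_, rfl⟩
  have hK1 : 1 ≤ K := by linarith
  have hK0 : 0 < K := by linarith
  have hKK : K ≤ K ^ 2 := le_self_pow₀ hK1 two_ne_zero
  have hK21 : 1 ≤ K ^ 2 := hK1.trans hKK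
  refine ⟨α, β, γ, min (1 / (200 * K ^ 2)) (s / (2 * K)), ⌈200 * K ^ 2⌉₊ + 2, hα0.le, hβ0.le,
    hγ0.le, lt_min (by positivity) (by positivity), ?_, by omega, ?_⟩
  · refine (min_le_left _ _).trans ?_
    rw [div_le_one (by positivity)]
    linarith
  intro x δ hx hδ hδ1
  have hx1 : 200 * K ^ 2 ≤ x := by
    have g1 := Nat.le_ceil (200 * K ^ 2)
    push_cast at hx
    linarith
  have hx0 : 0 < x := by linarith
  have d1 : δ ≤ 1 / (200 * K ^ 2) := hδ1.trans (min_le_left _ _)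
  have d2 : δ ≤ s / (2 * K) := hδ1.trans (min_le_right _ _)
  have hδK : K ^ 2 * (200 * δ) ≤ 1 := by
    rw [le_div_iff₀ (by positivity)] at d1
    linarith
  have hδK2 : 2 * (K * δ) ≤ s := by
    rw [le_div_iff₀ (by positivity)] at d2
    linarith
  obtain ⟨w, hw⟩ : ∃ w : ℝ, w = 1 / x := ⟨_, rfl⟩
  have hw0 : 0 < w := by rw [hw]; positivity
  have hwK : K ^ 2 * (200 * w) ≤ 1 := by
    rw [hw, mul_one_div, mul_div_assoc', div_le_one hx0]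
    linarith
  have hδs : δ ≤ 1 / 200 := by
    have := mul_le_mul_of_nonneg_right hK21 (by positivity : 0 ≤ 200 * δ)
    linarith
  have hws : w ≤ 1 / 200 := by
    have := mul_le_mul_of_nonneg_right hK21 (by positivity : 0 ≤ 200 * w)
    linarith
  have hr : ∀ y : ℝ, rr s p α β γ δ y = 1 + (p * (1 / y) - s * δ + α * (1 / y) ^ 2 +
      β * δ * (1 / y) + γ * δ ^ 2) := by
    intro y
    unfold rr
    ring
  obtain ⟨ρ, hρ⟩ : ∃ ρ : ℝ, ρ = p * w - s * δ + α * w ^ 2 + β * δ * w + γ * δ ^ 2 := ⟨_, rfl⟩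
  have hrx : rr s p α β γ δ x = 1 + ρ := by rw [hr, ← hw, hρ]
  obtain ⟨e, he⟩ : ∃ e : ℝ, e = α * w ^ 2 + β * δ * w + γ * δ ^ 2 := ⟨_, rfl⟩
  have he0 : 0 ≤ e := by rw [he]; positivity
  have hew : e ≤ w + δ := by
    have g1 : α * w ≤ 1 / 200 := by
      have := mul_le_mul_of_nonneg_right (by linarith : α ≤ K ^ 2) (by positivity : 0 ≤ 200 * w)
      linarith
    have g2 : β * w ≤ 1 / 200 := by
      have := mul_le_mul_of_nonneg_right (by linarith : β ≤ K ^ 2) (by positivity : 0 ≤ 200 * w)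
      linarith
    have g3 : γ * δ ≤ 1 / 200 := by
      have := mul_le_mul_of_nonneg_right (by linarith : γ ≤ K ^ 2) (by positivity : 0 ≤ 200 * δ)
      linarith
    have g4 : α * w * w ≤ 1 / 200 * w := mul_le_mul_of_nonneg_right g1 hw0.le
    have g5 : β * w * δ ≤ 1 / 200 * δ := mul_le_mul_of_nonneg_right g2 hδ.le
    have g6 : γ * δ * δ ≤ 1 / 200 * δ := mul_le_mul_of_nonneg_right g3 hδ.le
    have g7 : e = α * w * w + β * w * δ + γ * δ * δ := by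
      rw [he]
      ring
    linarith
  have hρe : ρ = p * w - s * δ + e := by rw [hρ, he]; ring
  have hpw0 : 0 < p * w := mul_pos hp0 hw0
  have hsδ0 : 0 < s * δ := mul_pos hs0 hδ
  have hpw1 : p * w ≤ w := mul_le_of_le_one_left hw0.le hp1.le
  have hsδ1 : s * δ ≤ δ := mul_le_of_le_one_left hδ.le hs1.le
  have hρ2 : |ρ| ≤ 2 * (w + δ) := by
    rw [abs_le, hρe]
    constructor <;> linarith
  have hρh : |ρ| ≤ 1 / 2 := hρ2.trans (by linarith)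
  have hρl := abs_le.1 hρh
  have e0 : δ ^ 2 / c ^ 2 = δ ^ 2 * (1 - s ^ 2) := by
    rw [hs2]
    ring
  rw [hrx, e0]
  refine ⟨by linarith, ?_, ?_, ?_⟩
  · have g1 : -(s * δ) + γ * δ ^ 2 ≤ ρ := by
      have : 0 ≤ α * w ^ 2 + β * δ * w := by positivity
      rw [hρ]
      linarith
    have g2 : (1 + δ) * (1 + (-(s * δ) + γ * δ ^ 2)) ≤ (1 + δ) * (1 + ρ) :=
      mul_le_mul_of_nonneg_left (by linarith) (by linarith)
    refine le_trans ?_ g2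
    have g3 : 0 ≤ (γ - s) * δ ^ 2 := mul_nonneg (by linarith) (sq_nonneg δ)
    have g4 : 0 ≤ γ * δ ^ 3 := by positivity
    have g5 : (1 + δ) * (1 + (-(s * δ) + γ * δ ^ 2)) =
        1 + (1 - s) * δ + (γ - s) * δ ^ 2 + γ * δ ^ 3 := by ring
    linarith
  · -- the main inequality
    have hx10 : 0 < x + 1 := by linarith
    have w1 : 1 / (x + 1) ≤ w - w ^ 2 + w ^ 3 := by
      rw [div_le_iff₀ hx10]
      have : (w - w ^ 2 + w ^ 3) * (x + 1) = 1 + w ^ 3 := by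
        rw [hw]
        field_simp
        ring
      have : 0 < w ^ 3 := by positivity
      linarith
    have w2 : (1 / (x + 1)) ^ 2 ≤ w ^ 2 - 2 * w ^ 3 + 3 * w ^ 4 := by
      rw [div_pow, one_pow, div_le_iff₀ (by positivity)]
      have e : (w ^ 2 - 2 * w ^ 3 + 3 * w ^ 4) * (x + 1) ^ 2 = 1 + 4 * w ^ 3 + 3 * w ^ 4 := by
        rw [hw]
        field_simp
        ring
      have : 0 < 4 * w ^ 3 + 3 * w ^ 4 := by positivity
      linarith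
    obtain ⟨u, hu⟩ : ∃ u : ℝ, u = p * (w - w ^ 2 + w ^ 3) - s * δ +
        α * (w ^ 2 - 2 * w ^ 3 + 3 * w ^ 4) + β * δ * (w - w ^ 2 + w ^ 3) + γ * δ ^ 2 := ⟨_, rfl⟩
    have hu1 : rr s p α β γ δ (x + 1) ≤ 1 + u := by
      rw [hr, hu]
      have g1 := mul_le_mul_of_nonneg_left w1 hp0.le
      have g2 := mul_le_mul_of_nonneg_left w2 hα0.le
      have g3 := mul_le_mul_of_nonneg_left w1 (by positivity : 0 ≤ β * δ)
      linarith
    have hi := inv_bd hρh rfl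
    have hc3 := core3 hs0 hp0 hp1 rel hα0.le hβ0.le hγ0.le c1 c2 c3 c4 hK hw0 hδ hwK hδK |ρ|
      hρ2 (abs_nonneg _)
    rw [← hu, ← hρ] at hc3
    have e2 : (1 - p) / x = (1 - p) * w := by rw [hw]; ring
    rw [e2]
    have g1 : (1 + (1 - p) * w) * ((1 + δ) * rr s p α β γ δ (x + 1) - 1) ≤
        (1 + (1 - p) * w) * ((1 + δ) * (1 + u) - 1) := by
      refine mul_le_mul_of_nonneg_left ?_ (by positivity)
      have := mul_le_mul_of_nonneg_left hu1 (by linarith : 0 ≤ 1 + δ)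
      linarith
    have g2 : (1 + δ) / (1 + ρ) ≤ (1 + δ) * (1 - ρ + ρ ^ 2 + 2 * |ρ| ^ 3) := by
      have := mul_le_mul_of_nonneg_left hi (by linarith : 0 ≤ 1 + δ)
      rw [mul_one_div] at this
      exact this
    have g3 : 0 ≤ (1 - δ) * (2 * |ρ| ^ 3) := by
      have : 0 ≤ 1 - δ := by linarith
      positivity
    have g4 : (1 + δ) ^ 2 - (1 + δ) * (1 - ρ + ρ ^ 2 + 2 * |ρ| ^ 3) -
        (1 + (1 - p) * w) * ((1 + δ) * (1 + u) - 1) - δ ^ 2 * (1 - s ^ 2) =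
        (s ^ 2 * δ ^ 2 + (1 + δ) * (ρ - u) - (1 + δ) * ρ ^ 2 - (1 - p) * w * δ -
          (1 - p) * w * ((1 + δ) * u) - 4 * |ρ| ^ 3) + (1 - δ) * (2 * |ρ| ^ 3) := by ring
    linarith
  · intro h2
    have hws' : 2 * w ≤ s * δ := by
      rw [div_le_iff₀ (by positivity)] at h2
      rw [hw, mul_one_div, div_le_iff₀ hx0]
      linarith
    have h := core4 hs0 hs1 hp0 hp1 hα0.le hβ0.le hγ8 hK hw0 hδ (by linarith) hδK2 hws'
    rw [← hρ] at h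
    have e3 : s * p * δ / x = s * p * δ * w := by rw [hw]; ring
    rw [e3]
    exact h

end Pool.Agent.Helper31.KE
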