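import Pool.Agent.Helper57.KE.St

/-!
# Project KE, module POL: the polynomial inequality with small parameters

With `w = 1/x`, `u = θ δ` the difference of the two sides is at least
`(s² - θ²) δ² + 2 (k θ - a (1 - θ)) w δ + k (1 - 2a - k) w² - 5 δ³ - δ w²`.
-/

set_option autoImplicit false

namespace Pool.Agent.Helper31.KE

open Pool.Agent.Helper57.KE Pool.Agent.Helper57.KR Pool.Agent.Helper65.RG

private theorem frac1 {x k : ℝ} (hx : 2 ≤ x) (hk0 : 0 < k) :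
    (x - 1) / (x - 1 + k) ≤ 1 - k * (1 / x) - k * (1 - k) * (1 / x) ^ 2 := by
  have hx0 : 0 < x := by linarith
  have hd : 0 < x - 1 + k := by linarith
  rw [div_le_iff₀ hd]
  have e : (1 - k * (1 / x) - k * (1 - k) * (1 / x) ^ 2) * (x - 1 + k) - (x - 1) =
      k * (1 - k) ^ 2 / x ^ 2 := by
    field_simp
    ring
  have h : 0 ≤ k * (1 - k) ^ 2 / x ^ 2 := by positivity
  linarith

private theorem frac2 {u : ℝ} (hu0 : 0 ≤ u) (hu1 : u ≤ 1 / 2) :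
    1 / (1 - u) ≤ 1 + u + u ^ 2 + 2 * u ^ 3 := by
  have hd : 0 < 1 - u := by linarith
  rw [div_le_iff₀ hd]
  have h3 : 0 ≤ u ^ 3 := by positivity
  nlinarith [mul_nonneg h3 (by linarith : (0 : ℝ) ≤ 1 - 2 * u)]

private theorem core {s a k θ δ x : ℝ} (ha : 0 < a) (ha2 : a ≤ 1 / 2) (hk0 : 0 < k) (hk1 : k ≤ 1)
    (hθ0 : 0 < θ) (hθ1 : θ < 1) (hβ : 0 ≤ k * θ - a * (1 - θ)) (hx : 2 ≤ x) (hδ : 0 < δ)
    (hδ2 : δ ≤ 1 / 2) (hδa : 5 * δ ≤ s ^ 2 - θ ^ 2) (hδg : δ ≤ k * (1 - 2 * a - k)) :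
    δ ^ 2 * (1 - s ^ 2) ≤ (1 + δ) ^ 2 - (1 + δ) * ((x - 1) / ((x - 1 + k) * (1 - θ * δ))) -
      (1 + 2 * a / x) * ((1 + δ) * ((1 + k / x) * (1 - θ * δ)) - 1) := by
  have hx0 : 0 < x := by linarith
  obtain ⟨w, hw⟩ : ∃ w : ℝ, w = 1 / x := ⟨_, rfl⟩
  obtain ⟨u, hu⟩ : ∃ u : ℝ, u = θ * δ := ⟨_, rfl⟩
  have hw0 : 0 < w := by rw [hw]; positivity
  have hu0 : 0 < u := by rw [hu]; positivity
  have hud : u ≤ δ := by
    rw [hu]
    nlinarith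
  have hu1 : u ≤ 1 / 2 := hud.trans hδ2
  have hY : (x - 1) / ((x - 1 + k) * (1 - θ * δ)) ≤
      (1 - k * w - k * (1 - k) * w ^ 2) * (1 + u + u ^ 2 + 2 * u ^ 3) := by
    have e0 : (x - 1) / ((x - 1 + k) * (1 - u)) = (x - 1) / (x - 1 + k) * (1 / (1 - u)) := by
      rw [div_mul_div_comm, mul_one]
    rw [← hu, e0]
    have f1 := frac1 hx hk0
    rw [← hw] at f1
    have f2 := frac2 hu0.le hu1
    have g1 : 0 ≤ (x - 1) / (x - 1 + k) := div_nonneg (by linarith) (by linarith)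
    have g2 : 0 ≤ 1 / (1 - u) := div_nonneg zero_le_one (by linarith)
    exact mul_le_mul f1 f2 g2 (g1.trans f1)
  have e1 : 2 * a / x = 2 * a * w := by rw [hw]; ring
  have e2 : k / x = k * w := by rw [hw]; ring
  rw [e1, e2, ← hu]
  have hY2 := mul_le_mul_of_nonneg_left hY (by linarith : (0 : ℝ) ≤ 1 + δ)
  rw [← hu] at hY2
  refine le_trans ?_ (sub_le_sub_right (sub_le_sub_left hY2 _) _)
  have hk' : 0 ≤ 1 - k := by linarith
  -- the exact remainder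
  have key : (1 + δ) ^ 2 - (1 + δ) * ((1 - k * w - k * (1 - k) * w ^ 2) *
      (1 + u + u ^ 2 + 2 * u ^ 3)) - (1 + 2 * a * w) * ((1 + δ) * ((1 + k * w) * (1 - u)) - 1) -
      δ ^ 2 * (1 - s ^ 2) =
      (s ^ 2 * δ ^ 2 - u ^ 2) + 2 * (k * u - a * (δ - u)) * w + k * (1 - 2 * a - k) * w ^ 2 -
      (2 * u ^ 3 + δ * u ^ 2 + 2 * δ * u ^ 3 + 2 * a * k * (δ * w ^ 2)) +
      (δ * k * (1 - k) * w ^ 2 + (k * w * (u ^ 2 + 2 * u ^ 3) +
        k * (1 - k) * w ^ 2 * (u + u ^ 2 + 2 * u ^ 3)) +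
        δ * (k * w + k * (1 - k) * w ^ 2) * (u + u ^ 2 + 2 * u ^ 3) + δ * k * w * u +
        2 * a * w * (δ * u + k * w * u + δ * k * w * u)) := by
    ring
  have p1 : 0 ≤ (δ * k * (1 - k) * w ^ 2 + (k * w * (u ^ 2 + 2 * u ^ 3) +
        k * (1 - k) * w ^ 2 * (u + u ^ 2 + 2 * u ^ 3)) +
        δ * (k * w + k * (1 - k) * w ^ 2) * (u + u ^ 2 + 2 * u ^ 3) + δ * k * w * u +
        2 * a * w * (δ * u + k * w * u + δ * k * w * u)) := by
    positivity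
  have p2 : 0 ≤ 2 * (k * u - a * (δ - u)) * w := by
    have : k * u - a * (δ - u) = δ * (k * θ - a * (1 - θ)) := by rw [hu]; ring
    rw [this]
    positivity
  have p3 : 5 * δ ^ 3 ≤ s ^ 2 * δ ^ 2 - u ^ 2 := by
    have : s ^ 2 * δ ^ 2 - u ^ 2 = δ ^ 2 * (s ^ 2 - θ ^ 2) := by rw [hu]; ring
    rw [this]
    nlinarith [mul_le_mul_of_nonneg_left hδa (sq_nonneg δ)]
  have p4 : δ * w ^ 2 ≤ k * (1 - 2 * a - k) * w ^ 2 :=
    mul_le_mul_of_nonneg_right hδg (sq_nonneg w)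
  have q1 : u ^ 2 ≤ δ ^ 2 := pow_le_pow_left₀ hu0.le hud 2
  have q2 : u ^ 3 ≤ δ ^ 3 := pow_le_pow_left₀ hu0.le hud 3
  have q3 : δ * u ^ 2 ≤ δ ^ 3 := by
    have := mul_le_mul_of_nonneg_left q1 hδ.le
    calc δ * u ^ 2 ≤ δ * δ ^ 2 := this
      _ = δ ^ 3 := by ring
  have q4 : δ * u ^ 3 ≤ δ ^ 3 := by
    have h3 : 0 ≤ δ ^ 3 := by positivity
    calc δ * u ^ 3 ≤ δ * δ ^ 3 := mul_le_mul_of_nonneg_left q2 hδ.le
      _ ≤ 1 * δ ^ 3 := mul_le_mul_of_nonneg_right (by linarith) h3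
      _ = δ ^ 3 := one_mul _
  have q5 : 2 * a * k * (δ * w ^ 2) ≤ δ * w ^ 2 := by
    have h5 : 0 ≤ δ * w ^ 2 := by positivity
    have h6 : 2 * a * k ≤ 1 := by nlinarith
    calc 2 * a * k * (δ * w ^ 2) ≤ 1 * (δ * w ^ 2) := mul_le_mul_of_nonneg_right h6 h5
      _ = δ * w ^ 2 := one_mul _
  linarith

theorem hPOL : StPOL := by
  intro c a hc ha hac
  have hc0 : 0 < c := by linarith
  have hc2 : 1 < c ^ 2 := by nlinarith
  have h1c : 1 / c ^ 2 < 1 := by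
    rw [div_lt_one (by positivity)]
    exact hc2
  have h0c : 0 < 1 / c ^ 2 := by positivity
  obtain ⟨s, hs⟩ : ∃ s : ℝ, s = ss c := ⟨_, rfl⟩
  rw [← hs] at hac
  have hs2 : s ^ 2 = 1 - 1 / c ^ 2 := by
    rw [hs, ss, Real.sq_sqrt (by linarith)]
  have hs0 : 0 < s := by
    rw [hs, ss]
    exact Real.sqrt_pos.2 (by linarith)
  have hs1 : s < 1 := by nlinarith
  have hg0 : a * (1 + s) < s := (lt_div_iff₀ (by linarith)).1 hac
  obtain ⟨g, hg⟩ : ∃ g : ℝ, g = s - a * (1 + s) := ⟨_, rfl⟩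
  have hgp : 0 < g := by linarith
  have ha2 : a < 1 / 2 := by nlinarith
  have hgs : g < s := by nlinarith
  have hga : g < 1 - 2 * a := by nlinarith [mul_pos (by linarith : (0 : ℝ) < 1 - a) (by linarith : 0 < 1 - s)]
  obtain ⟨k, hk⟩ : ∃ k : ℝ, k = 1 - 2 * a - g / 4 := ⟨_, rfl⟩
  obtain ⟨θ, hθ⟩ : ∃ θ : ℝ, θ = s - g / 4 := ⟨_, rfl⟩
  have hk0 : 0 < k := by linarith
  have hk1 : k ≤ 1 := by linarith
  have hθ0 : 0 < θ := by linarith
  have hθs : θ < s := by linarith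
  have hθ1 : θ < 1 := by linarith
  have hβ : 0 ≤ k * θ - a * (1 - θ) := by
    have e : k * θ - a * (1 - θ) = g - g / 4 * (1 - a + s) + (g / 4) ^ 2 := by
      rw [hk, hθ, hg]
      ring
    rw [e]
    nlinarith [sq_nonneg (g / 4), mul_pos hgp (by linarith : (0 : ℝ) < 1 + a - s + 1)]
  have hα : 0 < s ^ 2 - θ ^ 2 := by nlinarith
  have hγ : 0 < k * (1 - 2 * a - k) := mul_pos hk0 (by linarith)
  refine ⟨k, θ, min (min (1 / 2) ((s ^ 2 - θ ^ 2) / 5)) (min (k * (1 - 2 * a - k)) (1 - θ)), 2,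
    hk0, hk1, hθ0, hθ1, ?_, ?_, le_refl 2, ?_⟩
  · exact lt_min (lt_min (by norm_num) (by linarith)) (lt_min hγ (by linarith))
  · exact (min_le_left _ _).trans ((min_le_left _ _).trans (by norm_num))
  · intro x δ hx hδ hδ1
    have hx2 : 2 ≤ x := by exact_mod_cast hx
    have d1 : δ ≤ 1 / 2 := hδ1.trans ((min_le_left _ _).trans (min_le_left _ _))
    have d2 : δ ≤ (s ^ 2 - θ ^ 2) / 5 := hδ1.trans ((min_le_left _ _).trans (min_le_right _ _))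
    have d3 : δ ≤ k * (1 - 2 * a - k) := hδ1.trans ((min_le_right _ _).trans (min_le_left _ _))
    have d4 : δ ≤ 1 - θ := hδ1.trans ((min_le_right _ _).trans (min_le_right _ _))
    refine ⟨?_, ?_, ?_⟩
    · have h := core (s := s) ha ha2.le hk0 hk1 hθ0 hθ1 hβ hx2 hδ d1 (by linarith) d3
      have e : δ ^ 2 / c ^ 2 = δ ^ 2 * (1 - s ^ 2) := by
        rw [hs2]
        ring
      rw [e]
      exact h
    · nlinarith [mul_nonneg hδ.le (by linarith : (0 : ℝ) ≤ 1 - θ - δ), mul_pos hδ hδ]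
    · nlinarith

end Pool.Agent.Helper31.KE
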